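import Pool.Agent.Y160.T3.Main

/-!
# The Tate conjecture for every prime for `100%` of the surfaces
# `w ^ q = g(x ^ M) + (b(x ^ M) + c t ^ (p ^ d)) ^ q`, simultaneously for all `d` and `M`

Let `p` be a prime, `q` a power of `p`, `m ≥ 1` prime to `p`, `r ≥ 0` with `q r < m`, and `R` an odd
integer prime to `p`. For a monic polynomial `g` of degree `m` and a polynomial `b` of degree at most
`r` with integer coefficients, and an integer `c`, let `X_{d,M}` be the surface

  `w ^ q = g(x ^ M) + (b(x ^ M) + c t ^ (p ^ d)) ^ q`,  `d ≥ 1`, `M` a divisor of a power of `R`,

and `J` the Jacobian of its generic fibre over the line with coordinate `t`; its dimension is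
`(q - 1) (m M - 1) / 2`.

Theorem. Let `k` be a number field which contains the `q`-th roots of unity. For `100%` of the triples
`(g, b, c)` (the `m + r + 2` coefficients are in the box `|v_i| ≤ H`, and `H` tends to infinity) there is
a prime number `P`, prime to `q m R c`, such that `k` is a subfield of the field of the `P`-adic numbers,
and such that for ALL `d ≥ 1` and ALL `M` which divide a power of `R`
1. `g(x ^ M)` and `(g + b ^ q)(x ^ M)` are irreducible modulo `P`;
2. over EVERY subfield `E` of the field of the `P`-adic numbers which contains the `q`-th roots of
unity (so over `k`): the Tate conjecture at the prime `p` holds for `X_{d,M}`, the `p`-primary part of the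
Tate-Shafarevich group of `J` over `E(t)` is zero, and `J(E(t))` is divisible by `p` (and it is zero
when `E` is finitely generated);
3. over the field `F` with `P` elements: the `p`-primary part of the Tate-Shafarevich group of the
Jacobian of the reduction over `F(t)` is zero, and its group of points over `F(t)` is divisible by `p`;
being finitely generated, it is finite.

Consequence. Let `k₀` be any number field. Then for `100%` of the triples `(g, b, c)` the Tate
conjecture for divisors holds over `k₀` for all surfaces `X_{d,M}` and ALL primes `ℓ`. Indeed, we take `k`
to be `k₀` with the `q`-th roots of unity; the conjecture for `k` implies the one for `k₀`. The affine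
surface is smooth over the integers of `k` at the place given by `P` (`g(x ^ M)` and
`(g + b ^ q)(x ^ M)` are separable modulo `P`), its fibres over the affine line are irreducible, and it is
a quasi-smooth hypersurface at infinity in a weighted projective space whose weights are prime to
`P`, so a smooth projective model of `X_{d,M}` has good reduction, a model of the surface over `F`. By 3
and the theorems of Artin, Tate and Milne, the Tate conjecture holds over `F` for every prime `ℓ`, so
there are no nonzero Frobenius invariants in the part of the cohomology orthogonal to the
fibre components and the curves at infinity, and no nonzero classes invariant under the Galois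
group of `k` in this part.

The dimension of the parameter space is `m + r + 2`, the polynomials `g` and `b` are arbitrary, and the
geometric genus of `X_{d,M}` is unbounded for each triple.

Method: by a theorem on divisors of functions on a branch curve (a tower of Kummer extensions of a
rational function field) the statements follow when `g(x ^ M)` and `(g + b ^ q)(x ^ M)` are
irreducible. For a positive proportion of the triples modulo `P`, with a lower bound which does
not depend on `P`, this is true for all `M` at once: irreducible polynomials whose constant
coefficients are not `N`-th powers for the primes `N` dividing `R` have positive density among the monic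
polynomials, so by the inequality of Cauchy and Schwarz a positive proportion of the pairs whose
difference is proportional to `b ^ q` consists of such polynomials, and a substitution `x → ν x` makes the
difference a `q`-th power. So `100%` of the triples are good for some `P`.
-/

set_option autoImplicit false

namespace Pool.Agent.Results.MP_97f789_ag.AlmostAllTowers

open Pool.Agent.Y160.SL Filter Topology

theorem result {p s m r R : ℕ} (hp : p.Prime) (hcop : p.Coprime m) (hqr : p ^ (s + 1) * r < m)
    (hR : Odd R) (hpR : p.Coprime R) (k : Type) [Field k] [NumberField k] {ζ : k}
    (hζ : IsPrimitiveRoot ζ (p ^ (s + 1))) :
    Tendsto (fun H : ℕ => (({v : Fin (m + (r + 2)) → ℤ | (∀ i, |v i| ≤ (H : ℤ)) ∧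
      ¬ TowWorks p (p ^ (s + 1)) m R k (coefG m r v) (coefB m r v) (coefC m r v)}.ncard : ℕ) : ℝ) /
        (2 * (H : ℝ) + 1) ^ (m + (r + 2))) atTop (𝓝 0) :=
  Pool.Agent.Y160.T3.every hp hcop hqr hR hpR k hζ

end Pool.Agent.Results.MP_97f789_ag.AlmostAllTowers
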