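import Pool.Agent.Y101.Th.Core

/-!
# The Tate conjecture for divisors over number fields and systems of bilinear equations
-/

set_option autoImplicit false

open CategoryTheory AlgebraicGeometry Pool.Agent.Y116.UV Pool.Agent.Y101.Th

namespace Pool.Agent.Results.MP_97f789_ag.BilinearEquations

variable {k G Ω : Type} [Field k] [Group G] [Field Ω]

/-- **The Tate conjecture for divisors over number fields and bilinear equations.** Let `k` be a number
field. The Tate conjecture for divisors is true for all smooth projective varieties over `k` if and only
if, for all systems `B` of bilinear equations `∑_{j, l} t_ijl y_j z_l = 0` over `k` with at most four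
variables `y` or at most four variables `z` and for all `i`, the quotient of the part of weight zero of
`H_{2 i}(B, ℚ_ℓ(i))` by the space of the cycle classes has no trivial subquotient. Over `ℚ` the systems
with coefficients `0` and `1` and with four variables `z` are sufficient. -/
theorem result [NumberField k] (T : PureHomology k G Ω) (hT : IsPureCore T)
    (hK : InvDivisorsKnown T) :
    (InvDivisors T ↔
      ∀ (a b c : ℕ) (t : Fin a → Fin b → Fin c → k), (b ≤ 4 ∨ c ≤ 4) → StrongTate T (bilS t)) ∧
    ((∀ x : k, ∃ d m : ℤ, IsUnit (d : k) ∧ (d : k) * x = m) → (InvDivisors T ↔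
      ∀ (a b : ℕ) (t : Fin a → Fin b → Fin 4 → k), (∀ i j l, t i j l = 0 ∨ t i j l = 1) →
        StrongTate T (bilS t))) := by
  have h1 : InvDivisors T ↔
      ∀ X : Sch k, SmProj X → topologicalKrullDim X.left ≤ (2 : ℕ) → StrongTate T X := by
    rw [← hK.surfaces]
    constructor
    · intro h X hX hd i
      by_cases hi : i = 1
      · rw [hi]
        exact h X hX hd
      · exact hK.low X hX hd i hi
    · intro h X hX hd
      exact h X hX hd 1
  refine ⟨?_, fun hk => ?_⟩
  · rw [h1, core_dim hT 2]
  · rw [h1, core_dim_frac hk hT 2]

end Pool.Agent.Results.MP_97f789_ag.BilinearEquations
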