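import Pool.Agent.Y711.DN2

/-!
# Double covers of varieties over number fields: reductions without Tate classes for density one

Let `K` be a number field with ring of integers `O`, and let `m` be a monic polynomial over `O`,
squarefree over `K`. For every infinite set `Z` of primes of `K` and every `η > 0` there are finitely
many primes in `Z`, with intersection `M`, such that for at least the proportion `1 - η` of the monic
polynomials `E` modulo `M` of degree `d`, `d` large and `m E` of odd degree, there is one of these
primes, `P`, such that for ALL polynomials `D` over `O` congruent to `E` modulo `M` the reduction of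
`m D` modulo `P` has the property `IsGoodTwist`: for ALL extensions `L` of `F(t)`, `F` the residue
field of `P`, which are Galois of degree a power of three and in which no ramified place splits in
`L(√(m D))`, ALL schemes `Z` of finite type over the integral closure of `F[t]` in `L`, and ALL functions
`h` on `Z` such that the double covers `w ^ 2 = h` of the fibres outside `m` are unipotent modulo three,
the quotient of the zeta functions of `Z` and of its double cover `w ^ 2 = m D h` is a unit modulo three
at all integers.

By the specialization of Tate classes at `P` this applies to the double covers `w ^ 2 = m D h` of ALL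
families of varieties over the affine line (or its coverings) over `O` at once.
-/

set_option autoImplicit false

open Polynomial IsDedekindDomain NumberField Pool.Agent.Y711

namespace Pool.Agent.Results.MP_97f789_ag.DoubleCoversNumberFields

theorem result (K : Type) [Field K] [NumberField K] (Z : Set (HeightOneSpectrum (𝓞 K)))
    (hZ : Z.Infinite) (m : (𝓞 K)[X]) (hm : m.Monic)
    (hs : Squarefree (m.map (algebraMap (𝓞 K) K))) (η : ℝ) (hη : 0 < η) :
    ∃ (r : ℕ) (p : Fin r → HeightOneSpectrum (𝓞 K)) (N : ℕ), (∀ i, p i ∈ Z) ∧
      ∀ d ≥ N, Odd (m.natDegree + d) →
        (1 - η) * (Nat.card (𝓞 K ⧸ ⨅ i, (p i).asIdeal) : ℝ) ^ d ≤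
          ({E : (𝓞 K ⧸ ⨅ i, (p i).asIdeal)[X] | E.Monic ∧ E.natDegree = d ∧
            ∃ i, ∀ D : (𝓞 K)[X], D.map (Ideal.Quotient.mk (⨅ i, (p i).asIdeal)) = E →
              IsGoodTwist (p i).asIdeal.ResidueField
                (m.map (algebraMap (𝓞 K) (p i).asIdeal.ResidueField))
                ((m * D).map (algebraMap (𝓞 K) (p i).asIdeal.ResidueField))}).ncard :=
  number_field Z hZ hm hs hη

end Pool.Agent.Results.MP_97f789_ag.DoubleCoversNumberFields
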