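import Pool.Agent.Y142.ZO.Main
import Pool.Agent.Y337.ZO.Det
import Pool.Agent.Y337.ZO.Line
import Pool.Agent.Y708.ZO.Tan
import Pool.Agent.Y497.ZO.LogPow
import Pool.Agent.Y96.ZO.Spec
import Pool.Agent.Y405.ZO.Val
import Pool.Agent.Y405.ZO.Frob
import Pool.Agent.Y815.ZO.App
import Pool.Agent.Y458.ZO.Bad
import Pool.Agent.Y394.ZO.Dens

/-!
# A zero-one law in `ℓ` for the Tate conjecture

Let `X` be a smooth projective variety over a number field `K` (for instance a surface with
arbitrary geometric genus) and let `V_ℓ` be the orthogonal complement of the classes of algebraic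
cycles in `H^{2j}(X, ℚ_ℓ(j))`, `2j = dim X` (for all primes `ℓ`). Then `V_ℓ` is an orthogonal
representation of the Galois group `G_K`, its dimension `N` does not depend on `ℓ`, and at the places
`v` of good reduction (`v ∉ S`, `v` prime to `ℓ`) the characteristic polynomial `P_v` of the
geometric Frobenius element has rational coefficients and does not depend on `ℓ` (Deligne). The Tate
conjecture for `X` (over all finite extensions of `K`) at the prime `ℓ` says that `V_ℓ` contains no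
nonzero vector which is fixed by an open subgroup of `G_K`. It is not known that this is
independent of `ℓ`.

Let `N` be odd. Suppose that for ONE place `v₀ ∉ S` we have `P_{v₀} = (X - 1) Q₀`, where no complex
root of `Q₀` is a root of unity and `x y ≠ z` for all complex roots `x`, `y`, `z` of `Q₀`.

Theorem.

(A) Either for all primes `ℓ` prime to `v₀` the representation `V_ℓ` has a Tate subquotient (a nonzero
subquotient on which an open subgroup of `G_K` acts trivially), or the set of the primes `ℓ` for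
which `V_ℓ` has a Tate subquotient has natural density zero.

(B) The set has natural density zero if there is a second place `v₁ ∉ S` such that
`P_{v₁} = (X - 1) Q₁`, no root of `Q₁` is a root of unity, and the rational number
`Q₀(1) Q₀(-1) Q₁(1) Q₁(-1)` is not a square.

So if the Tate conjecture (and the semisimplicity of the Tate part) holds for ONE prime `ℓ` not
divisible by `v₀`, or if two Frobenius polynomials satisfy (B), then the Tate conjecture for `X` and
for all its base changes to finite extensions of `K` holds at 100 percent of the primes `ℓ`.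

The second condition in (B) is the condition of van Luijk, by which one proves upper bounds for the
Picard number; it excludes Tate classes directly only for the primes `ℓ` for which the number is not
a square in `ℚ_ℓ`, which is a set of density `1/2`.

Idea of the proof. If `V_ℓ` has a Tate subquotient, then all the numbers
`r_v = Q₀(1) Q₀(-1) Q_v(1) Q_v(-1)` are squares in `ℚ_ℓ`. Let `𝔤` be the Lie algebra of the image of
`G_K` in `O(V_ℓ)` and `e` the eigenvector of the Frobenius element at `v₀`. The condition `x y ≠ z`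
implies that the component `e ∧ Z e` of every `Z ∈ 𝔤` belongs to `𝔤`; if `V_ℓ` has no Tate
subquotient, then the vectors `Z e` generate a subspace of dimension at least two on which the form
does not vanish identically, and a computation with Pfaffians shows that the kernels of suitable
elements of `𝔤` are lines whose discriminants, divided by the discriminant of `e`, are all the
values of a form `1 + β₁ s² + β₂ t²`, `β₁ β₂ ≠ 0`. By Chebotarev's theorem these are the classes of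
numbers `r_v` in `ℚ_ℓ^* / ℚ_ℓ^{*2}`. Since the form has values of odd valuation, every `ℓ` without
Tate subquotient ramifies in one of the fields `ℚ(√r_v)`. Hence there are infinitely many independent
fields of this kind, and the set of the primes which split in all of them has density zero.
-/

set_option autoImplicit false

namespace Pool.Agent.Results.MP_97f789_ag.ZeroOneLaw

open Matrix Polynomial Filter Topology NumberField IsDedekindDomain

/-- the absolute Galois group of `K`, with its profinite (Krull) topology -/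
abbrev AbsoluteGaloisGroup (K : Type) [Field K] : Type := Gal(AlgebraicClosure K/K)

/-- `σ` is an (arithmetic) Frobenius element at the prime `v` of the number field `K`: for some prime
`Q` of the algebraic closure above `v` it acts on the residue field as `x ↦ x ^ N(v)` -/
def IsFrobenius {K : Type} [Field K] [NumberField K] (v : HeightOneSpectrum (𝓞 K))
    (σ : AbsoluteGaloisGroup K) : Prop :=
  ∃ Q : Ideal (𝓞 (AlgebraicClosure K)), Q.IsMaximal ∧
    Q.comap (algebraMap (𝓞 K) (𝓞 (AlgebraicClosure K))) = v.asIdeal ∧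
    ∀ x : 𝓞 (AlgebraicClosure K), σ • x - x ^ Ideal.absNorm v.asIdeal ∈ Q

/-- `ρ` is a continuous representation of `G_K` on `ℚ_ℓ ^ N` which preserves the nondegenerate
symmetric form with the matrix `B`, and for all `v ∉ S` which are prime to `ℓ` the characteristic
polynomial of the geometric Frobenius elements `σ⁻¹` (`σ` arithmetic) at `v` is `P v` -/
def IsOrthogonalSystem (K : Type) [Field K] [NumberField K] (N : ℕ)
    (S : Set (HeightOneSpectrum (𝓞 K))) (P : HeightOneSpectrum (𝓞 K) → ℚ[X]) (ℓ : ℕ)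
    [Fact ℓ.Prime] (ρ : AbsoluteGaloisGroup K →* Matrix (Fin N) (Fin N) ℚ_[ℓ])
    (B : Matrix (Fin N) (Fin N) ℚ_[ℓ]) : Prop :=
  Continuous ρ ∧ Bᵀ = B ∧ B.det ≠ 0 ∧ (∀ σ, (ρ σ)ᵀ * B * ρ σ = B) ∧
    ∀ v ∉ S, (ℓ : 𝓞 K) ∉ v.asIdeal → ∀ σ : AbsoluteGaloisGroup K, IsFrobenius v σ →
      (ρ σ⁻¹).charpoly = (P v).map (algebraMap ℚ ℚ_[ℓ])

/-- there are subspaces `W' < W` such that an open subgroup of the Galois group acts trivially on
`W / W'` -/
def HasTateSubquotient {K : Type} [Field K] {N : ℕ} (ℓ : ℕ) [Fact ℓ.Prime]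
    (ρ : AbsoluteGaloisGroup K →* Matrix (Fin N) (Fin N) ℚ_[ℓ]) : Prop :=
  ∃ (U : Subgroup (AbsoluteGaloisGroup K)) (W' W : Submodule ℚ_[ℓ] (Fin N → ℚ_[ℓ])),
    IsOpen (U : Set (AbsoluteGaloisGroup K)) ∧ W' < W ∧ ∀ σ ∈ U, ∀ w ∈ W, ρ σ *ᵥ w - w ∈ W'

/-- the set `A` of prime numbers has natural density zero -/
def HasDensityZero (A : Set ℕ) : Prop :=
  Tendsto (fun n : ℕ => (Nat.card {ℓ : ℕ // ℓ ≤ n ∧ ℓ ∈ A} : ℝ) / (Nat.primeCounting n : ℝ))
    atTop (𝓝 0)

/-- **A zero-one law in `ℓ` for the Tate conjecture.** -/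
theorem result (K : Type) [Field K] [NumberField K] (N : ℕ) (hN : Odd N)
    (S : Set (HeightOneSpectrum (𝓞 K))) (hS : S.Finite) (P : HeightOneSpectrum (𝓞 K) → ℚ[X])
    (ρ : ∀ (ℓ : ℕ) [Fact ℓ.Prime], AbsoluteGaloisGroup K →* Matrix (Fin N) (Fin N) ℚ_[ℓ])
    (B : ∀ (ℓ : ℕ) [Fact ℓ.Prime], Matrix (Fin N) (Fin N) ℚ_[ℓ])
    (hρ : ∀ (ℓ : ℕ) [Fact ℓ.Prime], IsOrthogonalSystem K N S P ℓ (ρ ℓ) (B ℓ))
    (v₀ : HeightOneSpectrum (𝓞 K)) (hv₀ : v₀ ∉ S) (Q₀ : ℚ[X]) (hP₀ : P v₀ = (X - 1) * Q₀)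
    (hQ₀ : ∀ n : ℕ, 0 < n → ∀ x : ℂ, aeval x Q₀ = 0 → x ^ n ≠ 1)
    (hxyz : ∀ x y z : ℂ, aeval x Q₀ = 0 → aeval y Q₀ = 0 → aeval z Q₀ = 0 → x * y ≠ z) :
    ((∀ (ℓ : ℕ) [Fact ℓ.Prime], (ℓ : 𝓞 K) ∉ v₀.asIdeal → HasTateSubquotient ℓ (ρ ℓ)) ∨
      HasDensityZero {ℓ | ∃ _ : Fact ℓ.Prime, HasTateSubquotient ℓ (ρ ℓ)}) ∧
    ∀ v₁ ∉ S, ∀ Q₁ : ℚ[X], P v₁ = (X - 1) * Q₁ →
      (∀ n : ℕ, 0 < n → ∀ x : ℂ, aeval x Q₁ = 0 → x ^ n ≠ 1) →
      ¬ IsSquare (Q₀.eval 1 * Q₀.eval (-1) * (Q₁.eval 1 * Q₁.eval (-1))) →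
      HasDensityZero {ℓ | ∃ _ : Fact ℓ.Prime, HasTateSubquotient ℓ (ρ ℓ)} := by
  have hALG : Y142.ZO.S_ALG := Y142.ZO.alg_main
  have hISO : Y142.ZO.S_ISO := Y337.ZO.iso_t
  have hLINE : Y142.ZO.S_LINE := Y337.ZO.line_t
  have hTAN : Y142.ZO.S_TAN := Y708.ZO.t
  have hLOG : Y142.ZO.S_LOG := Y497.ZO.log
  have hEXP : Y142.ZO.S_EXP := Y497.ZO.exp
  have hPOW : Y142.ZO.S_POW := Y497.ZO.pow
  have hSPEC : Y142.ZO.S_SPEC := Y96.ZO.t
  have hAPP : Y142.ZO.S_APP := Y815.ZO.t Y337.ZO.det_t Y337.ZO.qz_t hLOG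
  have hFROB : Y142.ZO.S_FROB := Y405.ZO.t
  have hBAD : Y142.ZO.S_BAD := Y458.ZO.bad hISO hLINE
  have hVAL : Y142.ZO.S_VAL := Y405.ZO.t1
  have hVAL2 : Y142.ZO.S_VAL2 := Y405.ZO.t2
  have hDENS : Y142.ZO.S_DENS := Y394.ZO.t1
  have hINF : Y142.ZO.S_INF := Y394.ZO.t2
  have hg₀ : Y142.ZO.GoodPlace S P v₀ Q₀ :=
    ⟨hv₀, hP₀, fun n hn => Y142.ZO.coprime_of_roots hQ₀ n hn⟩
  have hsys : ∀ (ℓ : ℕ) [Fact ℓ.Prime], Y142.ZO.Orthogonal K N ℓ (ρ ℓ) (B ℓ) S P := hρ
  refine ⟨Y142.ZO.zero_one hALG hISO hLINE hTAN hLOG hEXP hPOW hSPEC hAPP hFROB hBAD hVAL hVAL2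
    hDENS hINF hN hS hg₀ hxyz ρ B hsys, ?_⟩
  intro v₁ hv₁ Q₁ hP₁ hQ₁ hsq
  exact Y142.ZO.density_zero hALG hISO hLINE hTAN hLOG hEXP hPOW hSPEC hAPP hFROB hBAD hVAL hDENS
    hINF hN hS hg₀ hxyz ⟨hv₁, hP₁, fun n hn => Y142.ZO.coprime_of_roots hQ₁ n hn⟩ hsq ρ B hsys

end Pool.Agent.Results.MP_97f789_ag.ZeroOneLaw
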